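import Pool.Agent.H75.ERG.Targets

/-! PSI: properties of the cutoff profile. -/

set_option autoImplicit false

namespace Pool.Agent.H38.EG

open MeasureTheory Set Metric Filter Topology Pool.Agent.H93.BL
open Pool.Agent.H93.EN (av md rf chi gchi Bd Ml Nl Inv Agr sg VV Chart LS Phi)
open Pool.Agent.H93.EG (InvG Sm gN hN nrm)
open Pool.Agent.H75.ERG

/-- the clamped value -/
noncomputable def cl (p v : ℝ) : ℝ := max p (min (2 * p) v)

theorem cl_mono (p : ℝ) {v v' : ℝ} (h : v ≤ v') : cl p v ≤ cl p v' :=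
  max_le_max le_rfl (min_le_min le_rfl h)

theorem th_eq (k : ℕ) (v : ℝ) : th k v = (cl (2 ^ k) v - 2 ^ k) / 2 ^ k := by
  have hp : (0 : ℝ) < 2 ^ k := by positivity
  unfold th cl
  rcases le_total v (2 ^ k) with h1 | h1
  · have e1 : v / 2 ^ k - 1 ≤ 0 := by
      rw [sub_nonpos, div_le_one hp]; exact h1
    rw [min_eq_right (by linarith : v ≤ 2 * 2 ^ k), max_eq_left h1,
      min_eq_right (by linarith), max_eq_left e1, sub_self, zero_div]
  · have e0 : 0 ≤ v / 2 ^ k - 1 := by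
      rw [sub_nonneg, one_le_div hp]; exact h1
    rcases le_total v (2 * 2 ^ k) with h2 | h2
    · have e1 : v / 2 ^ k - 1 ≤ 1 := by
        rw [sub_le_iff_le_add, div_le_iff₀ hp]; linarith
      rw [min_eq_right h2, max_eq_right h1, min_eq_right e1, max_eq_right e0]
      field_simp
    · have e1 : 1 ≤ v / 2 ^ k - 1 := by
        rw [le_sub_iff_add_le, le_div_iff₀ hp]; linarith
      rw [min_eq_left h2, max_eq_right (by linarith : (2 : ℝ) ^ k ≤ 2 * 2 ^ k), min_eq_left e1,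
        max_eq_right zero_le_one]
      field_simp
      ring

theorem th_nonneg (k : ℕ) (v : ℝ) : 0 ≤ th k v := le_max_left _ _

theorem th_le_one (k : ℕ) (v : ℝ) : th k v ≤ 1 := max_le zero_le_one (min_le_left _ _)

theorem tele (K : ℕ) (v : ℝ) : ∑ k ∈ Finset.Icc 1 K, (cl (2 ^ k) v - 2 ^ k) =
    max 2 (min (2 ^ (K + 1)) v) - 2 := by
  induction K with
  | zero => simp
  | succ K ih =>
    rw [Finset.sum_Icc_succ_top (by omega), ih]
    have hP : (2 : ℝ) ≤ 2 ^ (K + 1) := by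
      rw [pow_succ]
      have : (1 : ℝ) ≤ 2 ^ K := one_le_pow₀ (by norm_num)
      linarith
    have e : (2 : ℝ) ^ (K + 1 + 1) = 2 * 2 ^ (K + 1) := by rw [pow_succ _ (K + 1)]; ring
    rw [e]
    generalize (2 : ℝ) ^ (K + 1) = P at hP
    unfold cl
    rcases le_total v 2 with h1 | h1
    · rw [min_eq_right (by linarith : v ≤ P), min_eq_right (by linarith : v ≤ 2 * P),
        max_eq_left h1, max_eq_left (by linarith : v ≤ P)]
      ring
    · rcases le_total v P with h2 | h2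
      · rw [min_eq_right h2, min_eq_right (by linarith : v ≤ 2 * P), max_eq_right h1,
          max_eq_left h2]
        ring
      · rcases le_total v (2 * P) with h3 | h3
        · rw [min_eq_left h2, min_eq_right h3, max_eq_right hP, max_eq_right h1, max_eq_right h2]
          ring
        · rw [min_eq_left h2, min_eq_left h3, max_eq_right hP,
            max_eq_right (by linarith : (2 : ℝ) ≤ 2 * P),
            max_eq_right (by linarith : P ≤ 2 * P)]
          ring

theorem clamp_lip (P : ℝ) (_hP : 2 ≤ P) {v v' : ℝ} (h : v ≤ v') :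
    max 2 (min P v') - max 2 (min P v) ≤ v' - v := by
  rcases max_cases 2 (min P v') with ⟨h1, h1'⟩ | ⟨h1, h1'⟩ <;>
  rcases max_cases 2 (min P v) with ⟨h2, h2'⟩ | ⟨h2, h2'⟩ <;>
  rcases min_cases P v' with ⟨h3, h3'⟩ | ⟨h3, h3'⟩ <;>
  rcases min_cases P v with ⟨h4, h4'⟩ | ⟨h4, h4'⟩ <;>
  rw [h1, h2] <;> linarith

theorem sum_cl_le (K : ℕ) {v v' : ℝ} (h : v ≤ v') :
    ∑ k ∈ Finset.Icc 1 K, (cl (2 ^ k) v' - cl (2 ^ k) v) ≤ v' - v := by
  have e : ∑ k ∈ Finset.Icc 1 K, (cl (2 ^ k) v' - cl (2 ^ k) v) =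
      ∑ k ∈ Finset.Icc 1 K, (cl (2 ^ k) v' - 2 ^ k) -
        ∑ k ∈ Finset.Icc 1 K, (cl (2 ^ k) v - 2 ^ k) := by
    rw [← Finset.sum_sub_distrib]
    exact Finset.sum_congr rfl fun k _ => by ring
  rw [e, tele, tele]
  have hP : (2 : ℝ) ≤ 2 ^ (K + 1) := by
    rw [pow_succ]
    have : (1 : ℝ) ≤ 2 ^ K := one_le_pow₀ (by norm_num)
    linarith
  have := clamp_lip (2 ^ (K + 1)) hP h
  linarith

theorem psi_mono (K : ℕ) {v v' : ℝ} (h : v ≤ v') : psi K v ≤ psi K v' := by
  unfold psi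
  refine div_le_div_of_nonneg_right (Finset.sum_le_sum fun k _ => ?_) (Nat.cast_nonneg K)
  rw [th_eq, th_eq]
  exact div_le_div_of_nonneg_right (by linarith [cl_mono (2 ^ k) h]) (by positivity)

theorem psi_diff (K : ℕ) (hK : 1 ≤ K) {v v' : ℝ} (hv : 0 < v) (h : v ≤ v') :
    psi K v' - psi K v ≤ 2 / (K * v) * (v' - v) := by
  have hK0 : (0 : ℝ) < K := by exact_mod_cast hK
  have h1 : ∀ k ∈ Finset.Icc 1 K, th k v' - th k v ≤
      2 / v * (cl (2 ^ k) v' - cl (2 ^ k) v) := by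
    intro k _
    have hp : (0 : ℝ) < 2 ^ k := by positivity
    have hm := cl_mono (2 ^ k) h
    rw [th_eq, th_eq]
    rcases lt_or_ge v (2 * 2 ^ k) with h2 | h2
    · have h3 : 1 / (2 : ℝ) ^ k ≤ 2 / v := by
        rw [div_le_div_iff₀ hp hv]; linarith
      calc (cl (2 ^ k) v' - 2 ^ k) / 2 ^ k - (cl (2 ^ k) v - 2 ^ k) / 2 ^ k =
            1 / 2 ^ k * (cl (2 ^ k) v' - cl (2 ^ k) v) := by ring
        _ ≤ _ := mul_le_mul_of_nonneg_right h3 (by linarith)
    · have e1 : cl (2 ^ k) v = 2 * 2 ^ k := by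
        unfold cl
        rw [min_eq_left h2, max_eq_right (by linarith)]
      have e2 : cl (2 ^ k) v' = 2 * 2 ^ k := by
        unfold cl
        rw [min_eq_left (h2.trans h), max_eq_right (by linarith)]
      rw [e1, e2]
      simp
  have h4 : ∑ k ∈ Finset.Icc 1 K, th k v' - ∑ k ∈ Finset.Icc 1 K, th k v ≤ 2 / v * (v' - v) := by
    rw [← Finset.sum_sub_distrib]
    refine (Finset.sum_le_sum h1).trans ?_
    rw [← Finset.mul_sum]
    exact mul_le_mul_of_nonneg_left (sum_cl_le K h) (by positivity)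
  unfold psi
  rw [← sub_div, div_le_iff₀ hK0]
  refine h4.trans (le_of_eq ?_)
  field_simp

theorem psi_low (K : ℕ) (v : ℝ) (hv : v ≤ 2) : psi K v = 0 := by
  unfold psi
  rw [Finset.sum_eq_zero, zero_div]
  intro k hk
  have hk1 := (Finset.mem_Icc.1 hk).1
  have hp : (2 : ℝ) ≤ 2 ^ k := by
    calc (2 : ℝ) = 2 ^ 1 := (pow_one 2).symm
      _ ≤ 2 ^ k := pow_le_pow_right₀ (by norm_num) hk1
  unfold th
  have e1 : v / 2 ^ k - 1 ≤ 0 := by
    rw [sub_nonpos, div_le_one (by positivity)]; linarith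
  rw [min_eq_right (by linarith), max_eq_left e1]

theorem psi_high (K : ℕ) (hK : 1 ≤ K) (v : ℝ) (hv : 2 ^ (K + 1) ≤ v) : psi K v = 1 := by
  have hK0 : (K : ℝ) ≠ 0 := by
    have : (0 : ℝ) < K := by exact_mod_cast hK
    exact this.ne'
  unfold psi
  have h1 : ∀ k ∈ Finset.Icc 1 K, th k v = 1 := by
    intro k hk
    have hk2 := (Finset.mem_Icc.1 hk).2
    have hp : (0 : ℝ) < 2 ^ k := by positivity
    have h2 : (2 : ℝ) ^ (k + 1) ≤ 2 ^ (K + 1) := pow_le_pow_right₀ (by norm_num) (by omega)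
    have h3 : (2 : ℝ) ^ (k + 1) = 2 * 2 ^ k := by rw [pow_succ]; ring
    unfold th
    have e1 : 1 ≤ v / 2 ^ k - 1 := by
      rw [le_sub_iff_add_le, le_div_iff₀ hp]; linarith
    rw [min_eq_left e1, max_eq_right zero_le_one]
  rw [Finset.sum_congr rfl h1, Finset.sum_const, Nat.card_Icc, nsmul_eq_mul, mul_one,
    Nat.add_sub_cancel, div_self hK0]

theorem dk_bd (K : ℕ) (hK : 1 ≤ K) (v : ℝ) : 0 ≤ DK K v ∧ DK K v ≤ 4 := by
  have hK1 : (1 : ℝ) ≤ K := by exact_mod_cast hK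
  unfold DK
  split_ifs with h
  · have h1 : 1 ≤ (K : ℝ) * v := by nlinarith [h.1]
    refine ⟨by positivity, ?_⟩
    rw [div_le_iff₀ (by linarith)]
    linarith
  · exact ⟨le_rfl, by norm_num⟩

theorem psi_lip (K : ℕ) (hK : 1 ≤ K) (v v' v₀ : ℝ) (hv : |v - v₀| ≤ 1 / 2)
    (hv' : |v' - v₀| ≤ 1 / 2) (h : v ≤ v') : psi K v' - psi K v ≤ DK K v₀ * (v' - v) := by
  have hK0 : (0 : ℝ) < K := by exact_mod_cast hK
  have a1 := abs_le.1 hv
  have a2 := abs_le.1 hv'
  unfold DK
  split_ifs with h0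
  · have hv0 : 0 < v := by linarith [h0.1]
    refine (psi_diff K hK hv0 h).trans ?_
    refine mul_le_mul_of_nonneg_right ?_ (by linarith)
    have h3 : 0 < v₀ := by linarith [h0.1]
    rw [div_le_div_iff₀ (by positivity) (by positivity)]
    nlinarith [h0.1]
  · rw [not_and_or, not_le, not_le] at h0
    rw [zero_mul]
    rcases h0 with h0 | h0
    · rw [psi_low K v (by linarith), psi_low K v' (by linarith), sub_zero]
    · have hP : (2 : ℝ) ^ (K + 2) = 2 * 2 ^ (K + 1) := by rw [pow_succ _ (K + 1)]; ring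
      have hP1 : (1 : ℝ) ≤ 2 ^ (K + 1) := one_le_pow₀ (by norm_num)
      rw [psi_high K hK v (by linarith), psi_high K hK v' (by linarith), sub_self]

theorem psi_ok : T_PSI := by
  intro K hK
  have hK0 : (0 : ℝ) < K := by exact_mod_cast hK
  refine ⟨?_, fun v => ⟨?_, ?_⟩, psi_low K, psi_high K hK, ?_, dk_bd K hK, ?_⟩
  · unfold psi th
    refine Continuous.div_const (continuous_finsetSum _ fun k _ => ?_) _
    exact continuous_const.max (continuous_const.min (by fun_prop))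
  · exact div_nonneg (Finset.sum_nonneg fun k _ => th_nonneg k v) hK0.le
  · unfold psi
    rw [div_le_one hK0]
    calc ∑ k ∈ Finset.Icc 1 K, th k v ≤ ∑ _k ∈ Finset.Icc 1 K, (1 : ℝ) :=
          Finset.sum_le_sum fun k _ => th_le_one k v
      _ = K := by simp
  · unfold DK
    refine Measurable.ite ?_ (by fun_prop) measurable_const
    exact (measurableSet_Ici (a := (1 : ℝ))).inter (measurableSet_Iic (a := (2 : ℝ) ^ (K + 2)))
  · intro v v' v₀ hv hv'
    rcases le_total v v' with h | h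
    · rw [abs_sub_comm (psi K v), abs_sub_comm v, abs_of_nonneg (by linarith [psi_mono K h]),
        abs_of_nonneg (by linarith)]
      exact psi_lip K hK v v' v₀ hv hv' h
    · rw [abs_of_nonneg (by linarith [psi_mono K h]), abs_of_nonneg (by linarith)]
      exact psi_lip K hK v' v v₀ hv' hv h

end Pool.Agent.H38.EG
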